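import Mathlib

/-! Global flows of bounded Lipschitz vector fields on a Banach space. -/

open Set Metric
open scoped NNReal Topology

namespace Pool.Agent.Helper65.Flow

variable {E : Type*} [NormedAddCommGroup E] [NormedSpace ℝ E] [CompleteSpace E]

/-- A global solution. -/
def Sol (V : E → E) (x : ℝ → E) : Prop := ∀ t, HasDerivAt x (V (x t)) t

omit [CompleteSpace E] in
theorem Sol.unique {V : E → E} {K : ℝ≥0} (hV : LipschitzWith K V) {x y : ℝ → E}
    (hx : Sol V x) (hy : Sol V y) {t₀ : ℝ} (h : x t₀ = y t₀) : x = y :=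
  ODE_solution_unique_univ (v := fun _ => V) (s := fun _ => univ) (K := K)
    (fun _ => hV.lipschitzOnWith) (fun t => ⟨hx t, mem_univ _⟩) (fun t => ⟨hy t, mem_univ _⟩) h

omit [CompleteSpace E] in
theorem Sol.shift {V : E → E} {x : ℝ → E} (hx : Sol V x) (s : ℝ) : Sol V fun t => x (t + s) :=
  fun t => (hx (t + s)).comp_add_const t s

theorem exists_local {V : E → E} {K : ℝ≥0} (hV : LipschitzWith K V) {M : ℝ≥0}
    (hM : ∀ x, ‖V x‖ ≤ M) (x₀ : E) (n : ℕ) :
    ∃ x : ℝ → E, x 0 = x₀ ∧ ∀ t ∈ Ioo (-(n + 1 : ℝ)) (n + 1), HasDerivAt x (V (x t)) t := by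
  have h0 : (0 : ℝ) ∈ Icc (-(n + 1 : ℝ)) (n + 1) := by
    constructor
    · have : (0 : ℝ) ≤ n := Nat.cast_nonneg n
      linarith
    · positivity
  have hpl : IsPicardLindelof (fun _ => V) (tmin := -(n + 1 : ℝ)) (tmax := n + 1) ⟨0, h0⟩ x₀
      (M * (n + 1)) 0 M K := by
    refine ⟨fun t _ => hV.lipschitzOnWith, fun x _ => continuousOn_const, fun t _ x _ => hM x, ?_⟩
    simp
  obtain ⟨x, hx0, hx⟩ := hpl.exists_eq_forall_mem_Icc_hasDerivWithinAt₀
  refine ⟨x, hx0, fun t ht => ?_⟩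
  exact (hx t (Ioo_subset_Icc_self ht)).hasDerivAt (Icc_mem_nhds ht.1 ht.2)

theorem exists_global {V : E → E} {K : ℝ≥0} (hV : LipschitzWith K V) {M : ℝ≥0}
    (hM : ∀ x, ‖V x‖ ≤ M) (x₀ : E) : ∃ x : ℝ → E, x 0 = x₀ ∧ Sol V x := by
  choose x hx0 hx using exists_local hV hM x₀
  have huniq : ∀ m n : ℕ, m ≤ n → ∀ t ∈ Ioo (-(m + 1 : ℝ)) (m + 1), x m t = x n t := by
    intro m n hmn t ht
    have hmn' : (m : ℝ) ≤ n := by exact_mod_cast hmn
    have h0 : (0 : ℝ) ∈ Ioo (-(m + 1 : ℝ)) (m + 1) := by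
      have : (0 : ℝ) ≤ m := Nat.cast_nonneg m
      constructor <;> linarith
    refine ODE_solution_unique_of_mem_Ioo (v := fun _ => V) (s := fun _ => univ) (K := K)
      (fun _ _ => hV.lipschitzOnWith) h0 (fun t ht => ⟨hx m t ht, mem_univ _⟩)
      (fun t ht => ⟨hx n t ⟨by linarith [ht.1], by linarith [ht.2]⟩, mem_univ _⟩)
      (by rw [hx0, hx0]) ht
  refine ⟨fun t => x ⌈|t|⌉₊ t, ?_, fun t => ?_⟩
  · simp [hx0]
  · set n := ⌈|t|⌉₊ + 1 with hn
    have hlt : |t| < n := by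
      have := Nat.le_ceil |t|
      rw [hn]; push_cast; linarith
    have hmem : t ∈ Ioo (-(n + 1 : ℝ)) (n + 1) := by
      have := abs_lt.1 hlt
      constructor <;> linarith
    have key : ∀ᶠ s : ℝ in 𝓝 t, x ⌈|s|⌉₊ s = x n s := by
      have : ∀ᶠ s : ℝ in 𝓝 t, |s| < n := (continuous_abs.tendsto t).eventually (gt_mem_nhds hlt)
      filter_upwards [this] with s hs
      have h1 : ⌈|s|⌉₊ ≤ n := Nat.ceil_le.2 hs.le
      refine huniq _ _ h1 s ?_
      have h2 := Nat.le_ceil |s|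
      have h3 : |s| < ⌈|s|⌉₊ + 1 := by linarith
      exact abs_lt.1 h3
    have h4 := (hx n t hmem).congr_of_eventuallyEq key
    have h5 : x ⌈|t|⌉₊ t = x n t := key.self_of_nhds
    simpa [h5] using h4

/-- The flow of `V`. -/
noncomputable def flow (V : E → E) (hV : ∃ K : ℝ≥0, LipschitzWith K V)
    (hM : ∃ M : ℝ≥0, ∀ x, ‖V x‖ ≤ M) (t : ℝ) (x : E) : E :=
  (exists_global hV.choose_spec hM.choose_spec x).choose t

variable {V : E → E} (hV : ∃ K : ℝ≥0, LipschitzWith K V) (hM : ∃ M : ℝ≥0, ∀ x, ‖V x‖ ≤ M)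

@[simp] theorem flow_zero (x : E) : flow V hV hM 0 x = x :=
  (exists_global hV.choose_spec hM.choose_spec x).choose_spec.1

theorem flow_sol (x : E) : Sol V fun t => flow V hV hM t x :=
  (exists_global hV.choose_spec hM.choose_spec x).choose_spec.2

theorem flow_add (s t : ℝ) (x : E) :
    flow V hV hM (s + t) x = flow V hV hM s (flow V hV hM t x) := by
  obtain ⟨K, hK⟩ := hV
  have h1 := (flow_sol ⟨K, hK⟩ hM x).shift t
  have h2 := flow_sol ⟨K, hK⟩ hM (flow V ⟨K, hK⟩ hM t x)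
  have h3 := h1.unique hK h2 (t₀ := 0) (by simp)
  exact congrFun h3 s

theorem eq_flow {x : ℝ → E} (hx : Sol V x) (t : ℝ) : x t = flow V hV hM t (x 0) := by
  obtain ⟨K, hK⟩ := hV
  have h2 := flow_sol ⟨K, hK⟩ hM (x 0)
  exact congrFun (hx.unique hK h2 (t₀ := 0) (by simp)) t

theorem flow_dist_le {K : ℝ≥0} (hK : LipschitzWith K V) {t : ℝ} (ht : 0 ≤ t) (x y : E) :
    dist (flow V hV hM t x) (flow V hV hM t y) ≤ dist x y * Real.exp (K * t) := by
  have hx := flow_sol hV hM x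
  have hy := flow_sol hV hM y
  have := dist_le_of_trajectories_ODE (v := fun _ => V) (K := K) (a := 0) (b := t) (δ := dist x y)
    (f := fun t => flow V hV hM t x) (g := fun t => flow V hV hM t y) (fun _ => hK)
    (fun s _ => (hx s).continuousAt.continuousWithinAt)
    (fun s _ => (hx s).hasDerivWithinAt)
    (fun s _ => (hy s).continuousAt.continuousWithinAt)
    (fun s _ => (hy s).hasDerivWithinAt) (by simp) t ⟨ht, le_rfl⟩
  simpa using this

omit [CompleteSpace E] in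
theorem Sol.neg {x : ℝ → E} (hx : Sol V x) : Sol (fun y => -V y) fun t => x (-t) := by
  intro t
  have := (hx (-t)).scomp t (hasDerivAt_neg t)
  rw [neg_one_smul] at this
  exact this

theorem flow_continuous_pos {t : ℝ} (ht : 0 ≤ t) : Continuous (flow V hV hM t) := by
  obtain ⟨K, hK⟩ := hV
  have : LipschitzWith ⟨Real.exp (K * t), (Real.exp_pos _).le⟩ (flow V ⟨K, hK⟩ hM t) := by
    refine LipschitzWith.of_dist_le_mul fun x y => ?_
    rw [mul_comm]
    exact flow_dist_le ⟨K, hK⟩ hM hK ht x y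
  exact this.continuous

theorem flow_neg_eq (hV' : ∃ K : ℝ≥0, LipschitzWith K fun x => -V x)
    (hM' : ∃ M : ℝ≥0, ∀ x, ‖-V x‖ ≤ M) (t : ℝ) (x : E) :
    flow V hV hM (-t) x = flow (fun x => -V x) hV' hM' t x := by
  have := eq_flow hV' hM' (flow_sol hV hM x).neg t
  simpa using this

theorem flow_continuous (t : ℝ) : Continuous (flow V hV hM t) := by
  rcases le_total 0 t with ht | ht
  · exact flow_continuous_pos hV hM ht
  · have hV' : ∃ K : ℝ≥0, LipschitzWith K fun x => -V x := by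
      obtain ⟨K, hK⟩ := hV
      exact ⟨K, hK.neg⟩
    have hM' : ∃ M : ℝ≥0, ∀ x, ‖-V x‖ ≤ M := by
      obtain ⟨M, h⟩ := hM
      exact ⟨M, fun x => by rw [norm_neg]; exact h x⟩
    have h1 : flow V hV hM t = flow (fun x => -V x) hV' hM' (-t) := by
      funext x
      rw [← flow_neg_eq hV hM hV' hM', neg_neg]
    rw [h1]
    exact flow_continuous_pos hV' hM' (by linarith)

theorem dist_flow_le {M : ℝ≥0} (h : ∀ x, ‖V x‖ ≤ M) (s t : ℝ) (x : E) :
    dist (flow V hV hM s x) (flow V hV hM t x) ≤ M * |s - t| := by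
  have hx := flow_sol hV hM x
  have := Convex.norm_image_sub_le_of_norm_hasDerivWithin_le (f := fun t => flow V hV hM t x)
    (f' := fun t => V (flow V hV hM t x)) (s := univ) (C := M) (x := t) (y := s)
    (fun r _ => (hx r).hasDerivWithinAt) (fun r _ => h _) convex_univ (mem_univ _) (mem_univ _)
  rw [dist_eq_norm]
  simpa using this

theorem flow_continuous_uncurry : Continuous fun p : ℝ × E => flow V hV hM p.1 p.2 := by
  obtain ⟨M, h⟩ := id hM
  rw [continuous_iff_continuousAt]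
  rintro ⟨t₀, x₀⟩
  rw [Metric.continuousAt_iff']
  intro ε hε
  have h1 : ∀ᶠ p : ℝ × E in 𝓝 (t₀, x₀), dist (flow V hV hM t₀ p.2) (flow V hV hM t₀ x₀) < ε / 2 := by
    have hc : ContinuousAt (fun p : ℝ × E => flow V hV hM t₀ p.2) (t₀, x₀) :=
      ((flow_continuous hV hM t₀).comp continuous_snd).continuousAt
    exact (Metric.continuousAt_iff'.1 hc) (ε / 2) (by positivity)
  have h2 : ∀ᶠ p : ℝ × E in 𝓝 (t₀, x₀), M * |p.1 - t₀| < ε / 2 := by
    have hc : ContinuousAt (fun p : ℝ × E => (M : ℝ) * |p.1 - t₀|) (t₀, x₀) := by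
      fun_prop
    have := (Metric.continuousAt_iff'.1 hc) (ε / 2) (by positivity)
    filter_upwards [this] with p hp
    have h3 : (M : ℝ) * |t₀ - t₀| = 0 := by simp
    rw [Real.dist_eq] at hp
    simp only [sub_self, abs_zero, mul_zero, sub_zero] at hp
    exact lt_of_le_of_lt (le_abs_self _) hp
  filter_upwards [h1, h2] with p hp1 hp2
  calc dist (flow V hV hM p.1 p.2) (flow V hV hM t₀ x₀)
      ≤ dist (flow V hV hM p.1 p.2) (flow V hV hM t₀ p.2)
        + dist (flow V hV hM t₀ p.2) (flow V hV hM t₀ x₀) := dist_triangle _ _ _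
    _ < ε := by linarith [dist_flow_le hV hM h p.1 t₀ p.2]

omit [CompleteSpace E] in
/-- A solution cannot return in a short time unless it is constant. -/
theorem no_short_return {K : ℝ≥0} (hK : LipschitzWith K V) {x : ℝ → E} (hx : Sol V x) {τ : ℝ}
    (hτ : 0 < τ) (hτ' : K * τ < 1) (h : x τ = x 0) : V (x 0) = 0 := by
  have hcont : Continuous x := continuous_iff_continuousAt.2 fun t => (hx t).continuousAt
  have hVc : Continuous fun t => ‖V (x t)‖ := (hK.continuous.comp hcont).norm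
  obtain ⟨s₀, hs₀, hmax⟩ := isCompact_Icc.exists_isMaxOn (nonempty_Icc.2 hτ.le) hVc.continuousOn
  set M := ‖V (x s₀)‖ with hMdef
  have hM1 : ∀ s ∈ Icc 0 τ, ‖V (x s)‖ ≤ M := fun s hs => hmax hs
  have hdist : ∀ s ∈ Icc 0 τ, ‖x s - x s₀‖ ≤ M * τ := by
    intro s hs
    have := Convex.norm_image_sub_le_of_norm_hasDerivWithin_le (f := x)
      (f' := fun t => V (x t)) (s := Icc 0 τ) (C := M) (x := s₀) (y := s)
      (fun r _ => (hx r).hasDerivWithinAt) hM1 (convex_Icc _ _) hs₀ hs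
    refine this.trans ?_
    have h1 : ‖s - s₀‖ ≤ τ := by
      rw [Real.norm_eq_abs, abs_le]
      constructor <;> linarith [hs.1, hs.2, hs₀.1, hs₀.2]
    exact mul_le_mul_of_nonneg_left h1 (norm_nonneg _)
  have h2 := Convex.norm_image_sub_le_of_norm_hasDerivWithin_le (f := fun t => x t - t • V (x s₀))
      (f' := fun t => V (x t) - V (x s₀)) (s := Icc 0 τ) (C := K * (M * τ)) (x := 0) (y := τ)
      (fun r _ => by
        have : HasDerivAt (fun t => x t - t • V (x s₀)) (V (x r) - (1 : ℝ) • V (x s₀)) r :=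
          (hx r).sub ((hasDerivAt_id r).smul_const (V (x s₀)))
        rw [one_smul] at this
        exact this.hasDerivWithinAt)
      (fun r hr => by
        have := hK.dist_le_mul (x r) (x s₀)
        rw [dist_eq_norm, dist_eq_norm] at this
        exact this.trans (mul_le_mul_of_nonneg_left (hdist r hr) K.2))
      (convex_Icc _ _) ⟨le_rfl, hτ.le⟩ ⟨hτ.le, le_rfl⟩
  have h3 : ‖τ • V (x s₀)‖ ≤ K * (M * τ) * τ := by
    have h4 : (x τ - τ • V (x s₀)) - (x 0 - (0 : ℝ) • V (x s₀)) = -(τ • V (x s₀)) := by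
      rw [h]; simp
    rw [h4, norm_neg] at h2
    simpa [abs_of_pos hτ] using h2
  rw [norm_smul, Real.norm_eq_abs, abs_of_pos hτ, ← hMdef] at h3
  have hM0 : 0 ≤ M := norm_nonneg _
  have hMz : M = 0 := by
    by_contra hne
    have hpos : 0 < M := lt_of_le_of_ne hM0 (Ne.symm hne)
    have : τ * M < τ * M := by
      calc τ * M ≤ K * (M * τ) * τ := h3
        _ = (K * τ) * (τ * M) := by ring
        _ < 1 * (τ * M) := by
          apply mul_lt_mul_of_pos_right hτ' (by positivity)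
        _ = τ * M := one_mul _
    exact lt_irrefl _ this
  have := hM1 0 ⟨le_rfl, hτ.le⟩
  rw [hMz] at this
  exact norm_le_zero_iff.1 this

end Pool.Agent.Helper65.Flow
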