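import Mathlib
import Pool.Agent.Helper65.Flow

/-! The vector field with plugs. -/

open Set Metric Real
open scoped NNReal Topology

namespace Pool.Agent.Helper65.Field

/-- cut-off function -/
noncomputable def ep (h : ℝ) : ℝ := min 1 (min (4 * |h|) (4 * (2 - |h|)))
/-- `ep (cos a + cos b)` -/
noncomputable def ee (a b : ℝ) : ℝ := ep (cos a + cos b)
/-- profile of the plug -/
noncomputable def sg (z : ℝ) : ℝ := 2 * max (sin z) 0 * cos z
/-- drift -/
noncomputable def dr (z : ℝ) : ℝ := π / 4 * max (-sin z) 0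

/-- the vector field -/
noncomputable def V (m : ℕ) (x : Fin (m + 3) → ℝ) : Fin (m + 3) → ℝ := fun i =>
  if i = 0 then ee (x 0) (x 1) * sg (x 2) * sin (x 1) + dr (x 2)
  else if i = 1 then -(ee (x 0) (x 1) * sg (x 2) * sin (x 0))
  else if i = 2 then 1 - ee (x 0) (x 1) * sg (x 2) ^ 2
  else 0

theorem two_ne_zero' (m : ℕ) : (2 : Fin (m + 3)) ≠ 0 := by
  intro h
  have h1 := congrArg Fin.val h
  have h2 : (2 : Fin (m + 3)).val = 2 := by
    change 2 % (m + 3) = 2
    exact Nat.mod_eq_of_lt (by omega)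
  rw [h2] at h1
  simp at h1

theorem two_ne_one' (m : ℕ) : (2 : Fin (m + 3)) ≠ 1 := by
  intro h
  have h1 := congrArg Fin.val h
  have h2 : (2 : Fin (m + 3)).val = 2 := by
    change 2 % (m + 3) = 2
    exact Nat.mod_eq_of_lt (by omega)
  rw [h2] at h1
  simp at h1

theorem V_zero (m : ℕ) (x : Fin (m + 3) → ℝ) :
    V m x 0 = ee (x 0) (x 1) * sg (x 2) * sin (x 1) + dr (x 2) := by simp [V]

theorem V_one (m : ℕ) (x : Fin (m + 3) → ℝ) :
    V m x 1 = -(ee (x 0) (x 1) * sg (x 2) * sin (x 0)) := by simp [V]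

theorem V_two (m : ℕ) (x : Fin (m + 3) → ℝ) :
    V m x 2 = 1 - ee (x 0) (x 1) * sg (x 2) ^ 2 := by
  simp [V, two_ne_zero' m, two_ne_one' m]

theorem V_other (m : ℕ) (x : Fin (m + 3) → ℝ) (i : Fin (m + 3)) (h0 : i ≠ 0) (h1 : i ≠ 1)
    (h2 : i ≠ 2) : V m x i = 0 := by
  simp [V, h0, h1, h2]

/-! ### Bounds -/

theorem abs_H_le (a b : ℝ) : |cos a + cos b| ≤ 2 := by
  rw [abs_le]
  constructor <;> linarith [neg_one_le_cos a, neg_one_le_cos b, cos_le_one a, cos_le_one b]

theorem ee_le_one (a b : ℝ) : ee a b ≤ 1 := min_le_left _ _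

theorem ee_nonneg (a b : ℝ) : 0 ≤ ee a b := by
  have := abs_H_le a b
  refine le_min zero_le_one (le_min (by positivity) (by linarith))

theorem sg_sq_le (z : ℝ) : sg z ^ 2 ≤ 1 := by
  have h1 : max (sin z) 0 ^ 2 ≤ sin z ^ 2 := by
    rcases le_total (sin z) 0 with h | h
    · rw [max_eq_right h]; nlinarith
    · rw [max_eq_left h]
  have h2 := sin_sq_add_cos_sq z
  have h3 : sg z ^ 2 = 4 * max (sin z) 0 ^ 2 * cos z ^ 2 := by unfold sg; ring
  rw [h3]
  have h4 : 0 ≤ cos z ^ 2 := sq_nonneg _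
  have h5 : 4 * max (sin z) 0 ^ 2 * cos z ^ 2 ≤ 4 * sin z ^ 2 * cos z ^ 2 := by
    apply mul_le_mul_of_nonneg_right _ h4
    linarith
  nlinarith [sq_nonneg (sin z ^ 2 - cos z ^ 2)]

theorem es_le (a b z : ℝ) : ee a b * sg z ^ 2 ≤ 1 := by
  have := mul_le_mul (ee_le_one a b) (sg_sq_le z) (sq_nonneg _) zero_le_one
  simpa using this

/-! ### Lipschitz bounds -/

variable {X : Type*} [PseudoMetricSpace X]

/-- bounded Lipschitz functions -/
def BL (f : X → ℝ) : Prop :=
  ∃ A K : ℝ, 0 ≤ A ∧ 0 ≤ K ∧ (∀ x, |f x| ≤ A) ∧ ∀ x y, |f x - f y| ≤ K * dist x y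

theorem BL.mul {f g : X → ℝ} (hf : BL f) (hg : BL g) : BL fun x => f x * g x := by
  obtain ⟨A, K, hA, hK, h1, h2⟩ := hf
  obtain ⟨A', K', hA', hK', h1', h2'⟩ := hg
  refine ⟨A * A', A * K' + A' * K, by positivity, by positivity, fun x => ?_, fun x y => ?_⟩
  · rw [abs_mul]; exact mul_le_mul (h1 x) (h1' x) (abs_nonneg _) hA
  · have : f x * g x - f y * g y = f x * (g x - g y) + g y * (f x - f y) := by ring
    rw [this]
    calc |f x * (g x - g y) + g y * (f x - f y)|
        ≤ |f x| * |g x - g y| + |g y| * |f x - f y| := by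
          refine (abs_add_le _ _).trans ?_
          rw [abs_mul, abs_mul]
      _ ≤ A * (K' * dist x y) + A' * (K * dist x y) := by
          gcongr
          · exact h1 x
          · exact h2' x y
          · exact h1' y
          · exact h2 x y
      _ = (A * K' + A' * K) * dist x y := by ring

theorem BL.add {f g : X → ℝ} (hf : BL f) (hg : BL g) : BL fun x => f x + g x := by
  obtain ⟨A, K, hA, hK, h1, h2⟩ := hf
  obtain ⟨A', K', hA', hK', h1', h2'⟩ := hg
  refine ⟨A + A', K + K', by positivity, by positivity, fun x => ?_, fun x y => ?_⟩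
  · exact (abs_add_le _ _).trans (add_le_add (h1 x) (h1' x))
  · have : f x + g x - (f y + g y) = (f x - f y) + (g x - g y) := by ring
    rw [this, add_mul]
    exact (abs_add_le _ _).trans (add_le_add (h2 x y) (h2' x y))

theorem BL.const (c : ℝ) : BL fun _ : X => c :=
  ⟨|c|, 0, abs_nonneg _, le_rfl, fun _ => le_rfl, fun x y => by simp⟩

theorem BL.comp {f : X → ℝ} (hf : BL f) {g : ℝ → ℝ} {L : ℝ} (hL : 0 ≤ L)
    (hg : ∀ s t, |g s - g t| ≤ L * |s - t|) : BL fun x => g (f x) := by
  obtain ⟨A, K, hA, hK, h1, h2⟩ := hf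
  refine ⟨|g 0| + L * A, L * K, by positivity, by positivity, fun x => ?_, fun x y => ?_⟩
  · have h3 := hg (f x) 0
    rw [sub_zero] at h3
    have h4 : |g (f x)| ≤ |g 0| + |g (f x) - g 0| := by
      have := abs_add_le (g 0) (g (f x) - g 0)
      simpa using this
    have h5 := mul_le_mul_of_nonneg_left (h1 x) hL
    linarith
  · calc |g (f x) - g (f y)| ≤ L * |f x - f y| := hg _ _
      _ ≤ L * (K * dist x y) := mul_le_mul_of_nonneg_left (h2 x y) hL
      _ = L * K * dist x y := by ring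

theorem BL.neg {f : X → ℝ} (hf : BL f) : BL fun x => -f x := by
  have := (BL.const (-1)).mul hf
  simpa using this

theorem BL.sub {f g : X → ℝ} (hf : BL f) (hg : BL g) : BL fun x => f x - g x := by
  simpa [sub_eq_add_neg] using hf.add hg.neg

theorem BL.max_zero {f : X → ℝ} (hf : BL f) : BL fun x => max (f x) 0 :=
  hf.comp (g := fun s => max s 0) zero_le_one fun s t => by
    rw [one_mul]
    exact abs_max_sub_max_le_abs s t 0

theorem bl_ep : ∀ s t : ℝ, |ep s - ep t| ≤ 4 * |s - t| := by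
  intro s t
  have h1 : |(|s| - |t|)| ≤ |s - t| := abs_abs_sub_abs_le _ _
  have h2 : ∀ u v : ℝ, |min 1 (min (4 * u) (4 * (2 - u))) - min 1 (min (4 * v) (4 * (2 - v)))| ≤
      4 * |u - v| := by
    intro u v
    have h3 : ∀ p q p' q' r : ℝ, |p - p'| ≤ r → |q - q'| ≤ r → |min p q - min p' q'| ≤ r := by
      intro p q p' q' r h h'
      rw [abs_le] at *
      constructor
      · rcases min_choice p q with h4 | h4 <;> rw [h4]
        · linarith [min_le_left p' q', h.1]
        · linarith [min_le_right p' q', h'.1]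
      · rcases min_choice p' q' with h4 | h4 <;> rw [h4]
        · linarith [min_le_left p q, h.2]
        · linarith [min_le_right p q, h'.2]
    apply h3
    · simp
    · apply h3
      · rw [← mul_sub, abs_mul]; simp
      · have : 4 * (2 - u) - 4 * (2 - v) = 4 * (v - u) := by ring
        rw [this, abs_mul, abs_sub_comm v u]; simp
  exact (h2 _ _).trans (by linarith)

theorem bl_sin {n : ℕ} (i : Fin n) : BL fun x : Fin n → ℝ => sin (x i) := by
  refine ⟨1, 1, zero_le_one, zero_le_one, fun x => abs_sin_le_one _, fun x y => ?_⟩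
  have h := lipschitzWith_sin.dist_le_mul (x i) (y i)
  rw [Real.dist_eq] at h
  refine h.trans ?_
  simpa using dist_le_pi_dist x y i

theorem bl_cos {n : ℕ} (i : Fin n) : BL fun x : Fin n → ℝ => cos (x i) := by
  refine ⟨1, 1, zero_le_one, zero_le_one, fun x => abs_cos_le_one _, fun x y => ?_⟩
  have h := lipschitzWith_cos.dist_le_mul (x i) (y i)
  rw [Real.dist_eq] at h
  refine h.trans ?_
  simpa using dist_le_pi_dist x y i

theorem bl_V (m : ℕ) (i : Fin (m + 3)) : BL fun x => V m x i := by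
  have he : BL fun x : Fin (m + 3) → ℝ => ee (x 0) (x 1) :=
    ((bl_cos 0).add (bl_cos 1)).comp (g := ep) (L := 4) (by norm_num) bl_ep
  have hs : BL fun x : Fin (m + 3) → ℝ => sg (x 2) :=
    ((BL.const 2).mul (bl_sin 2).max_zero).mul (bl_cos 2)
  have hd : BL fun x : Fin (m + 3) → ℝ => dr (x 2) :=
    (BL.const (π / 4)).mul (bl_sin 2).neg.max_zero
  unfold V
  split_ifs
  · exact ((he.mul hs).mul (bl_sin 1)).add hd
  · exact ((he.mul hs).mul (bl_sin 0)).neg
  · have : BL fun x : Fin (m + 3) → ℝ => sg (x 2) ^ 2 := by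
      simpa [sq] using hs.mul hs
    exact (BL.const 1).sub (he.mul this)
  · exact BL.const 0

theorem lip_V (m : ℕ) : ∃ K : ℝ≥0, LipschitzWith K (V m) := by
  choose A K hA hK h1 h2 using bl_V m
  refine ⟨.mk (∑ i, K i) (Finset.sum_nonneg fun i _ => hK i), LipschitzWith.of_dist_le_mul fun x y => ?_⟩
  have hS : 0 ≤ (∑ i, K i) * dist x y := mul_nonneg (Finset.sum_nonneg fun i _ => hK i) dist_nonneg
  rw [NNReal.coe_mk, dist_pi_le_iff hS]
  intro i
  rw [Real.dist_eq]
  refine (h2 i x y).trans ?_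
  apply mul_le_mul_of_nonneg_right _ dist_nonneg
  exact Finset.single_le_sum (fun i _ => hK i) (Finset.mem_univ i)

theorem bdd_V (m : ℕ) : ∃ M : ℝ≥0, ∀ x, ‖V m x‖ ≤ M := by
  choose A K hA hK h1 h2 using bl_V m
  refine ⟨.mk (∑ i, A i) (Finset.sum_nonneg fun i _ => hA i), fun x => ?_⟩
  rw [NNReal.coe_mk, pi_norm_le_iff_of_nonneg (Finset.sum_nonneg fun i _ => hA i)]
  intro i
  rw [Real.norm_eq_abs]
  refine (h1 i x).trans ?_
  exact Finset.single_le_sum (fun i _ => hA i) (Finset.mem_univ i)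

/-! ### Periodicity and absence of zeros -/

theorem V_periodic (m : ℕ) (x : Fin (m + 3) → ℝ) (k : Fin (m + 3) → ℤ) :
    V m (x + fun i => (k i : ℝ) * (2 * π)) = V m x := by
  funext i
  simp only [V, Pi.add_apply, ee, sg, dr, sin_add_int_mul_two_pi, cos_add_int_mul_two_pi]

theorem ep_zero : ep 0 = 0 := by simp [ep]

theorem ep_two {h : ℝ} (hh : |h| = 2) : ep h = 0 := by
  simp [ep, hh]

theorem V_ne_zero (m : ℕ) (x : Fin (m + 3) → ℝ) : V m x ≠ 0 := by
  intro h
  have h0 : ee (x 0) (x 1) * sg (x 2) * sin (x 1) + dr (x 2) = 0 := by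
    have := congrFun h 0
    simpa [V] using this
  have h1 : ee (x 0) (x 1) * sg (x 2) * sin (x 0) = 0 := by
    have := congrFun h 1
    simpa [V] using this
  have h2 : 1 - ee (x 0) (x 1) * sg (x 2) ^ 2 = 0 := by
    have := congrFun h 2
    simpa [V, two_ne_zero' m, two_ne_one' m] using this
  have he := ee_le_one (x 0) (x 1)
  have he0 := ee_nonneg (x 0) (x 1)
  have hs := sg_sq_le (x 2)
  have hee : ee (x 0) (x 1) = 1 := by nlinarith [sq_nonneg (sg (x 2))]
  have hss : sg (x 2) ≠ 0 := by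
    intro h3
    rw [h3] at h2
    norm_num at h2
  have hsin : 0 < sin (x 2) := by
    by_contra h3
    apply hss
    rw [sg, max_eq_right (not_lt.1 h3)]
    simp
  have hdr : dr (x 2) = 0 := by
    rw [dr, max_eq_right (by linarith)]
    simp
  rw [hdr, add_zero, hee, one_mul] at h0
  rw [hee, one_mul] at h1
  have hb : sin (x 1) = 0 := by simpa [hss] using h0
  have ha : sin (x 0) = 0 := by simpa [hss] using h1
  have hca : cos (x 0) = 1 ∨ cos (x 0) = -1 := by
    have := sin_sq_add_cos_sq (x 0)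
    rw [ha] at this
    have h4 : (cos (x 0) - 1) * (cos (x 0) + 1) = 0 := by nlinarith
    rcases mul_eq_zero.1 h4 with h5 | h5
    · left; linarith
    · right; linarith
  have hcb : cos (x 1) = 1 ∨ cos (x 1) = -1 := by
    have := sin_sq_add_cos_sq (x 1)
    rw [hb] at this
    have h4 : (cos (x 1) - 1) * (cos (x 1) + 1) = 0 := by nlinarith
    rcases mul_eq_zero.1 h4 with h5 | h5
    · left; linarith
    · right; linarith
  have hz : ee (x 0) (x 1) = 0 := by
    unfold ee
    rcases hca with h5 | h5 <;> rcases hcb with h6 | h6 <;> rw [h5, h6]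
    · apply ep_two; norm_num
    · norm_num [ep_zero]
    · norm_num [ep_zero]
    · apply ep_two; norm_num
  rw [hz] at hee
  exact zero_ne_one hee

end Pool.Agent.Helper65.Field
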