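import Mathlib
import Pool.Agent.Helper65.Field

/-! Trajectories of the vector field with plugs are uniformly bounded. -/

open Set Metric Real
open scoped NNReal Topology

namespace Pool.Agent.Helper65.Orbit

open Pool.Agent.Helper65.Field Pool.Agent.Helper65.Flow

/-- trajectories of the three-dimensional system -/
structure Tr (a b z : ℝ → ℝ) : Prop where
  ha : ∀ t, HasDerivAt a (ee (a t) (b t) * sg (z t) * sin (b t) + dr (z t)) t
  hb : ∀ t, HasDerivAt b (-(ee (a t) (b t) * sg (z t) * sin (a t))) t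
  hz : ∀ t, HasDerivAt z (1 - ee (a t) (b t) * sg (z t) ^ 2) t

variable {a b z : ℝ → ℝ}

theorem Tr.shift (h : Tr a b z) (s : ℝ) :
    Tr (fun t => a (t + s)) (fun t => b (t + s)) fun t => z (t + s) where
  ha t := (h.ha (t + s)).comp_add_const t s
  hb t := (h.hb (t + s)).comp_add_const t s
  hz t := (h.hz (t + s)).comp_add_const t s

theorem Tr.cont_z (h : Tr a b z) : Continuous z :=
  continuous_iff_continuousAt.2 fun t => (h.hz t).continuousAt

theorem Tr.cont_a (h : Tr a b z) : Continuous a :=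
  continuous_iff_continuousAt.2 fun t => (h.ha t).continuousAt

theorem Tr.cont_b (h : Tr a b z) : Continuous b :=
  continuous_iff_continuousAt.2 fun t => (h.hb t).continuousAt

theorem Tr.mono (h : Tr a b z) : Monotone z := by
  apply monotone_of_deriv_nonneg (fun t => (h.hz t).differentiableAt)
  intro t
  rw [(h.hz t).deriv]
  linarith [es_le (a t) (b t) (z t)]

/-- a function with zero derivative on an interval -/
theorem const_of_deriv {f : ℝ → ℝ} {s t : ℝ} (hst : s ≤ t)
    (hf : ∀ r ∈ Icc s t, HasDerivAt f 0 r) : f t = f s := by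
  have := Convex.norm_image_sub_le_of_norm_hasDerivWithin_le (f := f)
      (f' := fun _ => 0) (s := Icc s t) (C := 0) (x := s) (y := t)
      (fun r hr => (hf r hr).hasDerivWithinAt) (fun r _ => by simp) (convex_Icc _ _)
      ⟨le_rfl, hst⟩ ⟨hst, le_rfl⟩
  rw [zero_mul] at this
  have := norm_le_zero_iff.1 this
  linarith

theorem ivt {f : ℝ → ℝ} (hf : Continuous f) {s t c : ℝ} (hst : s ≤ t) (h1 : f s ≤ c)
    (h2 : c ≤ f t) : ∃ r ∈ Icc s t, f r = c :=
  intermediate_value_Icc hst hf.continuousOn ⟨h1, h2⟩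

/-! ### the plug zone -/

theorem sin_nonneg_of_plug {k : ℤ} {z : ℝ} (h1 : 2 * π * k ≤ z) (h2 : z ≤ 2 * π * k + π) :
    0 ≤ sin z := by
  have : sin z = sin (z - k * (2 * π)) := (sin_sub_int_mul_two_pi z k).symm
  rw [this]
  apply sin_nonneg_of_nonneg_of_le_pi <;> linarith

theorem sin_nonpos_of_drift {k : ℤ} {z : ℝ} (h1 : 2 * π * k + π ≤ z)
    (h2 : z ≤ 2 * π * k + 2 * π) : sin z ≤ 0 := by
  have : sin z = sin (z - (k + 1 : ℤ) * (2 * π)) := (sin_sub_int_mul_two_pi z (k + 1)).symm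
  rw [this]
  push_cast
  apply sin_nonpos_of_nonpos_of_neg_pi_le <;> linarith

theorem dr_zero {z : ℝ} (h : 0 ≤ sin z) : dr z = 0 := by
  rw [dr, max_eq_right (by linarith), mul_zero]

theorem sg_zero {z : ℝ} (h : sin z ≤ 0) : sg z = 0 := by
  rw [sg, max_eq_right h]; ring

theorem sg_eq {z : ℝ} (h : 0 ≤ sin z) : sg z = 2 * sin z * cos z := by
  rw [sg, max_eq_left h]

theorem dr_eq {z : ℝ} (h : sin z ≤ 0) : dr z = π / 4 * (-sin z) := by
  rw [dr, max_eq_left (by linarith)]

/-- `cos a + cos b` is conserved in the plug zone -/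
theorem Tr.H_const (h : Tr a b z) {k : ℤ} {s t : ℝ} (hst : s ≤ t) (h1 : 2 * π * k ≤ z s)
    (h2 : z t ≤ 2 * π * k + π) {r : ℝ} (hr : r ∈ Icc s t) :
    cos (a r) + cos (b r) = cos (a s) + cos (b s) := by
  apply const_of_deriv (f := fun r => cos (a r) + cos (b r)) hr.1
  intro q hq
  have h3 : 2 * π * k ≤ z q := h1.trans (h.mono hq.1)
  have h4 : z q ≤ 2 * π * k + π := (h.mono (hq.2.trans hr.2)).trans h2
  have h5 := dr_zero (sin_nonneg_of_plug h3 h4)
  have h6 : HasDerivAt (fun r => cos (a r) + cos (b r)) _ q := (h.ha q).cos.add (h.hb q).cos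
  rw [h5] at h6
  have e : -sin (a q) * (ee (a q) (b q) * sg (z q) * sin (b q) + 0) +
      -sin (b q) * -(ee (a q) (b q) * sg (z q) * sin (a q)) = 0 := by ring
  rw [e] at h6
  exact h6

/-! ### mirror symmetry -/

theorem Tr.sol (h : Tr a b z) : Sol (V 0) fun t => ![a t, b t, z t] := by
  intro t
  rw [hasDerivAt_pi]
  intro i
  fin_cases i
  · have h0 : V 0 ![a t, b t, z t] 0 = ee (a t) (b t) * sg (z t) * sin (b t) + dr (z t) := by
      rw [V_zero]; simp
    simp only [Fin.zero_eta]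
    rw [h0]
    exact h.ha t
  · have h0 : V 0 ![a t, b t, z t] 1 = -(ee (a t) (b t) * sg (z t) * sin (a t)) := by
      rw [V_one]; simp
    simp only [Fin.mk_one]
    rw [h0]
    exact h.hb t
  · have h0 : V 0 ![a t, b t, z t] 2 = 1 - ee (a t) (b t) * sg (z t) ^ 2 := by
      rw [V_two]; simp
    simp only [Fin.reduceFinMk]
    rw [h0]
    exact h.hz t

theorem Tr.mirror (h : Tr a b z) {k : ℤ} {t₀ tm : ℝ} (ht : t₀ ≤ tm) (h1 : z t₀ = 2 * π * k)
    (h2 : z tm = 2 * π * k + π / 2) :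
    z (2 * tm - t₀) = 2 * π * k + π ∧ a (2 * tm - t₀) = a t₀ ∧ b (2 * tm - t₀) = b t₀ := by
  obtain ⟨K, hK⟩ := lip_V 0
  have hx := h.sol
  have hc := continuous_iff_continuousAt.2 fun t => (hx t).continuousAt
  set w : ℝ → Fin 3 → ℝ := fun t => ![a (2 * tm - t), b (2 * tm - t), 4 * π * k + π - z (2 * tm - t)]
    with hw
  have hwc : Continuous w := by
    apply continuous_pi
    intro i
    have ha := h.cont_a
    have hb := h.cont_b
    have hz := h.cont_z
    fin_cases i
    · change Continuous fun t => a (2 * tm - t)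
      fun_prop
    · change Continuous fun t => b (2 * tm - t)
      fun_prop
    · change Continuous fun t => 4 * π * k + π - z (2 * tm - t)
      fun_prop
  have hwd : ∀ t ∈ Ico tm (2 * tm - t₀), HasDerivAt w (V 0 (w t)) t := by
    intro t ht'
    set s := 2 * tm - t with hs
    have hs1 : t₀ ≤ s := by linarith [ht'.2]
    have hs2 : s ≤ tm := by linarith [ht'.1]
    have hz1 : 2 * π * k ≤ z s := by rw [← h1]; exact h.mono hs1
    have hz2 : z s ≤ 2 * π * k + π / 2 := by rw [← h2]; exact h.mono hs2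
    have hpi := pi_pos
    have hsin := sin_nonneg_of_plug hz1 (by linarith)
    have hrev : HasDerivAt (fun t : ℝ => 2 * tm - t) (-1) t := by
      simpa using (hasDerivAt_id t).const_sub (2 * tm)
    have hsin' : sin (4 * π * k + π - z s) = sin (z s) := by
      have : 4 * π * k + π - z s = π - z s + (2 * k : ℤ) * (2 * π) := by push_cast; ring
      rw [this, sin_add_int_mul_two_pi, sin_pi_sub]
    have hcos' : cos (4 * π * k + π - z s) = -cos (z s) := by
      have : 4 * π * k + π - z s = π - z s + (2 * k : ℤ) * (2 * π) := by push_cast; ring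
      rw [this, cos_add_int_mul_two_pi, cos_pi_sub]
    have hsg : sg (4 * π * k + π - z s) = -sg (z s) := by
      rw [sg, sg, hsin', hcos']; ring
    have hd1 := dr_zero hsin
    have hd2 : dr (4 * π * k + π - z s) = 0 := dr_zero (by rw [hsin']; exact hsin)
    rw [hasDerivAt_pi]
    intro i
    fin_cases i
    · change HasDerivAt (fun t => a (2 * tm - t)) (V 0 (w t) 0) t
      have h0 : V 0 (w t) 0 = (ee (a s) (b s) * sg (z s) * sin (b s) + dr (z s)) * (-1) := by
        rw [V_zero]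
        simp only [hw, Matrix.cons_val_zero, Matrix.cons_val_one, Matrix.cons_val]
        rw [← hs, hsg, hd1, hd2]; ring
      rw [h0]
      exact HasDerivAt.comp t (h.ha s) hrev
    · change HasDerivAt (fun t => b (2 * tm - t)) (V 0 (w t) 1) t
      have h0 : V 0 (w t) 1 = (-(ee (a s) (b s) * sg (z s) * sin (a s))) * (-1) := by
        rw [V_one]
        simp only [hw, Matrix.cons_val_zero, Matrix.cons_val_one, Matrix.cons_val]
        rw [← hs, hsg]; ring
      rw [h0]
      exact HasDerivAt.comp t (h.hb s) hrev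
    · change HasDerivAt (fun t => 4 * π * k + π - z (2 * tm - t)) (V 0 (w t) 2) t
      have h0 : V 0 (w t) 2 = -((1 - ee (a s) (b s) * sg (z s) ^ 2) * (-1)) := by
        rw [V_two]
        simp only [hw, Matrix.cons_val_zero, Matrix.cons_val_one, Matrix.cons_val]
        rw [← hs, hsg]; ring
      rw [h0]
      exact (HasDerivAt.comp t (h.hz s) hrev).const_sub _
  have heq := ODE_solution_unique (v := fun _ => V 0) (K := K) (a := tm) (b := 2 * tm - t₀)
    (f := fun t => ![a t, b t, z t]) (g := w) (fun _ => hK) hc.continuousOn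
    (fun t _ => (hx t).hasDerivWithinAt) hwc.continuousOn
    (fun t ht => (hwd t ht).hasDerivWithinAt)
    (by
      simp only [hw]
      rw [show 2 * tm - tm = tm by ring, h2]
      congr 3
      ring)
  have hend := heq (x := 2 * tm - t₀) ⟨by linarith, le_rfl⟩
  simp only [hw] at hend
  rw [show 2 * tm - (2 * tm - t₀) = t₀ by ring, h1] at hend
  have e0 := congrFun hend 0
  have e1 := congrFun hend 1
  have e2 := congrFun hend 2
  simp at e0 e1 e2
  exact ⟨by rw [e2]; ring, e0, e1⟩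

/-! ### the drift zone -/

theorem Tr.drift_aux (h : Tr a b z) {k : ℤ} {s t : ℝ} (hst : s ≤ t) (h1 : 2 * π * k + π ≤ z s)
    (h2 : z t ≤ 2 * π * k + 2 * π) :
    a t - π / 4 * cos (z t) = a s - π / 4 * cos (z s) ∧ b t = b s := by
  have hsin : ∀ r ∈ Icc s t, sin (z r) ≤ 0 := fun r hr =>
    sin_nonpos_of_drift (h1.trans (h.mono hr.1)) ((h.mono hr.2).trans h2)
  constructor
  · apply const_of_deriv (f := fun r => a r - π / 4 * cos (z r)) hst
    intro r hr
    have h3 := sg_zero (hsin r hr)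
    have h4 := dr_eq (hsin r hr)
    have h5 : HasDerivAt (fun r => a r - π / 4 * cos (z r)) _ r :=
      (h.ha r).sub ((h.hz r).cos.const_mul (π / 4))
    rw [h3, h4] at h5
    have e : ee (a r) (b r) * 0 * sin (b r) + π / 4 * -sin (z r) -
        π / 4 * (-sin (z r) * (1 - ee (a r) (b r) * 0 ^ 2)) = 0 := by ring
    rw [e] at h5
    exact h5
  · apply const_of_deriv (f := b) hst
    intro r hr
    have h3 := sg_zero (hsin r hr)
    have h5 := h.hb r
    rw [h3] at h5
    have e : -(ee (a r) (b r) * 0 * sin (a r)) = 0 := by ring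
    rw [e] at h5
    exact h5

theorem Tr.drift (h : Tr a b z) {k : ℤ} {s t : ℝ} (hst : s ≤ t) (h1 : z s = 2 * π * k + π)
    (h2 : z t = 2 * π * k + 2 * π) : a t = a s + π / 2 ∧ b t = b s := by
  obtain ⟨h3, h4⟩ := h.drift_aux hst h1.ge h2.le
  have h5 : cos (z t) = 1 := by
    rw [h2, show 2 * π * k + 2 * π = 0 + (k + 1 : ℤ) * (2 * π) by push_cast; ring,
      cos_add_int_mul_two_pi, cos_zero]
  have h6 : cos (z s) = -1 := by
    rw [h1, show 2 * π * k + π = π + (k : ℤ) * (2 * π) by ring,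
      cos_add_int_mul_two_pi, cos_pi]
  rw [h5, h6] at h3
  exact ⟨by linarith, h4⟩

/-! ### trapping -/

theorem Tr.trap (h : Tr a b z) {k : ℤ} {t₀ : ℝ} (h1 : z t₀ = 2 * π * k)
    (h2 : ee (a t₀) (b t₀) = 1) {t : ℝ} (ht : t₀ ≤ t) : z t < 2 * π * k + π / 4 := by
  have hpi := pi_pos
  by_contra hcon
  rw [not_lt] at hcon
  obtain ⟨T, hT, hzT⟩ := ivt h.cont_z ht (c := 2 * π * k + π / 4) (by linarith) hcon
  have hmem : ∀ r ∈ Icc t₀ T, 2 * π * k ≤ z r ∧ z r ≤ 2 * π * k + π / 4 := fun r hr =>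
    ⟨by rw [← h1]; exact h.mono hr.1, by rw [← hzT]; exact h.mono hr.2⟩
  have hee : ∀ r ∈ Icc t₀ T, ee (a r) (b r) = 1 := by
    intro r hr
    have := h.H_const (k := k) hT.1 h1.ge (by rw [hzT]; linarith) hr
    rw [ee, this]
    exact h2
  -- the function `u e^{2t}` is monotone
  have hmono : MonotoneOn (fun r => (2 * π * k + π / 4 - z r) * exp (2 * r)) (Icc t₀ T) := by
    apply monotoneOn_of_deriv_nonneg (convex_Icc _ _)
    · have := h.cont_z
      fun_prop
    · intro r _
      have h3 : HasDerivAt (fun r => exp (2 * r)) (exp (2 * r) * (2 * 1)) r :=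
        ((hasDerivAt_id r).const_mul 2).exp
      exact (((h.hz r).const_sub _).mul h3).differentiableAt.differentiableWithinAt
    · intro r hr
      rw [interior_Icc] at hr
      have hr' := Ioo_subset_Icc_self hr
      have h3 : HasDerivAt (fun r => exp (2 * r)) (exp (2 * r) * (2 * 1)) r :=
        ((hasDerivAt_id r).const_mul 2).exp
      have h4 := ((h.hz r).const_sub (2 * π * k + π / 4)).mul h3
      have h5 : deriv (fun r => (2 * π * k + π / 4 - z r) * exp (2 * r)) r = _ := h4.deriv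
      rw [h5, hee r hr']
      obtain ⟨h6, h7⟩ := hmem r hr'
      have h8 := sin_nonneg_of_plug h6 (by linarith)
      rw [sg_eq h8]
      set u := 2 * π * k + π / 4 - z r with hu
      have hu0 : 0 ≤ u := by linarith
      have h9 : (2 * sin (z r) * cos (z r)) = cos (2 * u) := by
        rw [← sin_two_mul, hu, show 2 * (2 * π * k + π / 4 - z r) =
          π / 2 - 2 * z r + (2 * k : ℤ) * (2 * π) by push_cast; ring, cos_add_int_mul_two_pi,
          cos_pi_div_two_sub]
      rw [h9]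
      have h10 := sin_sq_add_cos_sq (2 * u)
      have h11 : sin (2 * u) ^ 2 ≤ 2 * u := by
        have h12 : |sin (2 * u)| ≤ 1 := abs_sin_le_one _
        have h13 : |sin (2 * u)| ≤ |2 * u| := abs_sin_le_abs
        rw [abs_of_nonneg (by linarith : (0 : ℝ) ≤ 2 * u)] at h13
        rw [← sq_abs]
        nlinarith [abs_nonneg (sin (2 * u))]
      have h14 : 0 < exp (2 * r) := exp_pos _
      have h15 : -(1 - 1 * cos (2 * u) ^ 2) * exp (2 * r) + u * (exp (2 * r) * (2 * 1)) =
        (2 * u - (1 - cos (2 * u) ^ 2)) * exp (2 * r) := by ring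
      rw [h15]
      apply mul_nonneg _ h14.le
      nlinarith
  have h3 := hmono ⟨le_rfl, hT.1⟩ ⟨hT.1, le_rfl⟩ hT.1
  simp only at h3
  rw [hzT, h1, sub_self, zero_mul] at h3
  have h4 : 0 < (2 * π * k + π / 4 - 2 * π * k) * exp (2 * t₀) := by
    apply mul_pos _ (exp_pos _)
    linarith
  linarith

/-! ### covering -/

theorem ee_eq_one {h : ℝ} (h1 : 1 / 4 ≤ |h|) (h2 : |h| ≤ 7 / 4) : ep h = 1 := by
  apply min_eq_left
  apply le_min <;> linarith

theorem cover_aux {c s q : ℝ} (h : c ^ 2 + s ^ 2 = 1) :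
    (1 / 4 ≤ |c + q| ∧ |c + q| ≤ 7 / 4) ∨ (1 / 4 ≤ |-s + q| ∧ |-s + q| ≤ 7 / 4) ∨
      (1 / 4 ≤ |-c + q| ∧ |-c + q| ≤ 7 / 4) ∨ (1 / 4 ≤ |s + q| ∧ |s + q| ≤ 7 / 4) ∨ 1 < |q| := by
  by_contra hcon
  push Not at hcon
  obtain ⟨h1, h2, h3, h4, h5⟩ := hcon
  -- reduce to nonnegative values
  have key : ∀ c s q : ℝ, 0 ≤ c → 0 ≤ s → 0 ≤ q → c ^ 2 + s ^ 2 = 1 →
      (1 / 4 ≤ |c + q| → 7 / 4 < |c + q|) → (1 / 4 ≤ |s + q| → 7 / 4 < |s + q|) → q ≤ 1 → c ≤ s →
      False := by
    intro c s q hc hs hq h h1 h2 h3 hcs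
    rw [abs_of_nonneg (by linarith)] at h1 h2
    have hc1 : c ≤ 3 / 4 := by nlinarith
    by_cases h6 : 1 / 4 ≤ c + q
    · have := h1 h6
      linarith
    · have hc2 : c < 1 / 4 := by linarith
      have hq2 : q < 1 / 4 := by linarith
      have hs1 : 1 / 4 ≤ s := by nlinarith
      have hs2 : s ≤ 1 := by nlinarith
      have := h2 (by linarith)
      linarith
  have e1 : (1 / 4 ≤ abs (abs c + abs q) → 7 / 4 < abs (abs c + abs q)) := by
    rcases abs_cases c with ⟨hc, _⟩ | ⟨hc, _⟩ <;> rcases abs_cases q with ⟨hq, _⟩ | ⟨hq, _⟩ <;>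
      rw [hc, hq]
    · exact h1
    · rw [show c + -q = -(-c + q) by ring, abs_neg]; exact h3
    · exact h3
    · rw [show -c + -q = -(c + q) by ring, abs_neg]; exact h1
  have e2 : (1 / 4 ≤ abs (abs s + abs q) → 7 / 4 < abs (abs s + abs q)) := by
    rcases abs_cases s with ⟨hc, _⟩ | ⟨hc, _⟩ <;> rcases abs_cases q with ⟨hq, _⟩ | ⟨hq, _⟩ <;>
      rw [hc, hq]
    · exact h4
    · rw [show s + -q = -(-s + q) by ring, abs_neg]; exact h2
    · exact h2
    · rw [show -s + -q = -(s + q) by ring, abs_neg]; exact h4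
  rcases le_total |c| |s| with hcs | hcs
  · exact key |c| |s| |q| (abs_nonneg _) (abs_nonneg _) (abs_nonneg _)
      (by rw [sq_abs, sq_abs]; exact h) e1 e2 h5 hcs
  · exact key |s| |c| |q| (abs_nonneg _) (abs_nonneg _) (abs_nonneg _)
      (by rw [sq_abs, sq_abs]; linarith) e2 e1 h5 hcs

theorem cover (a b : ℝ) : ee a b = 1 ∨ ee (a + π / 2) b = 1 ∨ ee (a + π / 2 + π / 2) b = 1 ∨
    ee (a + π / 2 + π / 2 + π / 2) b = 1 := by
  have h1 : cos (a + π / 2) = -sin a := cos_add_pi_div_two a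
  have h2 : cos (a + π / 2 + π / 2) = -cos a := by
    rw [cos_add_pi_div_two, sin_add_pi_div_two]
  have h3 : cos (a + π / 2 + π / 2 + π / 2) = sin a := by
    rw [cos_add_pi_div_two, sin_add_pi_div_two, cos_add_pi_div_two, neg_neg]
  unfold ee
  rw [h1, h2, h3]
  rcases cover_aux (c := cos a) (s := sin a) (q := cos b) (cos_sq_add_sin_sq a) with
    h | h | h | h | h
  · exact Or.inl (ee_eq_one h.1 h.2)
  · exact Or.inr (Or.inl (ee_eq_one h.1 h.2))
  · exact Or.inr (Or.inr (Or.inl (ee_eq_one h.1 h.2)))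
  · exact Or.inr (Or.inr (Or.inr (ee_eq_one h.1 h.2)))
  · exact absurd h (not_lt.2 (abs_cos_le_one b))

end Pool.Agent.Helper65.Orbit
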