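import Mathlib
import Pool.Agent.Helper65.Orbit

/-! Trajectories of the vector field with plugs are uniformly bounded. -/

open Set Metric Real
open scoped NNReal Topology

namespace Pool.Agent.Helper65.Bound

open Pool.Agent.Helper65.Field Pool.Agent.Helper65.Flow Pool.Agent.Helper65.Orbit

variable {a b z : ℝ → ℝ}

/-- one period: from the entry of a plug to the entry of the next one -/
theorem step (h : Tr a b z) {k : ℤ} {t₀ T : ℝ} (ht : t₀ ≤ T) (h1 : z t₀ = 2 * π * k)
    (h2 : 2 * π * (k + 1 : ℤ) ≤ z T) :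
    ∃ t₁ ∈ Icc t₀ T, z t₁ = 2 * π * (k + 1 : ℤ) ∧ a t₁ = a t₀ + π / 2 ∧ b t₁ = b t₀ := by
  have hpi := pi_pos
  push_cast at h2 ⊢
  obtain ⟨tm, htm, hztm⟩ := ivt h.cont_z ht (c := 2 * π * k + π / 2) (by linarith) (by linarith)
  obtain ⟨hz1, ha1, hb1⟩ := h.mirror htm.1 h1 hztm
  set te := 2 * tm - t₀ with hte
  have hteT : te ≤ T := by
    by_contra hcon
    have := h.mono (not_le.1 hcon).le
    linarith
  have hte0 : t₀ ≤ te := by linarith [htm.1]
  obtain ⟨t₁, ht₁, hzt₁⟩ := ivt h.cont_z hteT (c := 2 * π * k + 2 * π) (by linarith) (by linarith)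
  obtain ⟨ha2, hb2⟩ := h.drift ht₁.1 hz1 hzt₁
  exact ⟨t₁, ⟨hte0.trans ht₁.1, ht₁.2⟩, by rw [hzt₁]; ring, by rw [ha2, ha1], by rw [hb2, hb1]⟩

/-- the vertical displacement is bounded -/
theorem vertical (h : Tr a b z) {s t : ℝ} (hst : s ≤ t) : z t < z s + 10 * π := by
  have hpi := pi_pos
  by_contra hcon
  rw [not_lt] at hcon
  set k := ⌈z s / (2 * π)⌉ with hk
  have hk1 : z s ≤ 2 * π * k := by
    have := Int.le_ceil (z s / (2 * π))
    rw [div_le_iff₀ (by positivity)] at this
    rw [← hk] at this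
    linarith
  have hk2 : 2 * π * k < z s + 2 * π := by
    have := Int.ceil_lt_add_one (z s / (2 * π))
    rw [← hk] at this
    have h3 : (k : ℝ) * (2 * π) < (z s / (2 * π) + 1) * (2 * π) :=
      mul_lt_mul_of_pos_right this (by positivity)
    have h4 : (z s / (2 * π) + 1) * (2 * π) = z s + 2 * π := by
      field_simp
    linarith
  obtain ⟨t0, ht0, hz0⟩ := ivt h.cont_z hst (c := 2 * π * k) hk1 (by linarith)
  obtain ⟨t1, ht1, hz1, ha1, hb1⟩ := step h ht0.2 hz0 (by push_cast; linarith)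
  obtain ⟨t2, ht2, hz2, ha2, hb2⟩ := step h ht1.2 hz1 (by push_cast; linarith)
  obtain ⟨t3, ht3, hz3, ha3, hb3⟩ := step h ht2.2 hz2 (by push_cast; linarith)
  rcases cover (a t0) (b t0) with hc | hc | hc | hc
  · have := h.trap hz0 hc ht0.2
    linarith
  · have := h.trap hz1 (by rw [ha1, hb1]; exact hc) ht1.2
    push_cast at this
    linarith
  · have := h.trap hz2 (by rw [ha2, hb2, ha1, hb1]; exact hc) ht2.2
    push_cast at this
    linarith
  · have := h.trap hz3 (by rw [ha3, hb3, ha2, hb2, ha1, hb1]; exact hc) ht3.2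
    push_cast at this
    linarith

/-- a continuous function whose cosine has no zero moves by less than `π` -/
theorem cos_ne_zero_bound {f : ℝ → ℝ} (hf : Continuous f) {s t : ℝ} (hst : s ≤ t)
    (h : ∀ r ∈ Icc s t, cos (f r) ≠ 0) : |f t - f s| ≤ π := by
  have hpi := pi_pos
  -- a value of the form `π/2 + kπ` in any interval of length larger than `π`
  have key : ∀ u v : ℝ, u + π < v → ∃ c, u ≤ c ∧ c ≤ v ∧ cos c = 0 := by
    intro u v huv
    refine ⟨π / 2 + ⌈(u - π / 2) / π⌉ * π, ?_, ?_, ?_⟩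
    · have := Int.le_ceil ((u - π / 2) / π)
      rw [div_le_iff₀ hpi] at this
      linarith
    · have := Int.ceil_lt_add_one ((u - π / 2) / π)
      have h3 := mul_lt_mul_of_pos_right this hpi
      have h4 : ((u - π / 2) / π + 1) * π = u - π / 2 + π := by field_simp
      linarith
    · rw [cos_add_int_mul_pi]; simp
  by_contra hcon
  rw [not_le] at hcon
  rcases le_total (f s) (f t) with hle | hle
  · rw [abs_of_nonneg (by linarith)] at hcon
    obtain ⟨c, hc1, hc2, hc3⟩ := key (f s) (f t) (by linarith)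
    obtain ⟨r, hr, hfr⟩ := ivt hf hst hc1 hc2
    exact h r hr (by rw [hfr]; exact hc3)
  · rw [abs_of_nonpos (by linarith)] at hcon
    obtain ⟨c, hc1, hc2, hc3⟩ := key (f t) (f s) (by linarith)
    obtain ⟨r, hr, hfr⟩ := intermediate_value_Icc' hst hf.continuousOn ⟨hc1, hc2⟩
    exact h r hr (by rw [hfr]; exact hc3)

/-- displacement in a plug -/
theorem plug_bound (h : Tr a b z) {k : ℤ} {s t : ℝ} (hst : s ≤ t) (h1 : 2 * π * k ≤ z s)
    (h2 : z t ≤ 2 * π * k + π) : |a t - a s| ≤ 2 * π ∧ |b t - b s| ≤ 2 * π := by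
  have hpi := pi_pos
  by_cases h0 : cos (a s) + cos (b s) = 0
  · have hee : ∀ r ∈ Icc s t, ee (a r) (b r) = 0 := fun r hr => by
      rw [ee, h.H_const hst h1 h2 hr, h0, ep_zero]
    have hdr : ∀ r ∈ Icc s t, dr (z r) = 0 := fun r hr =>
      dr_zero (sin_nonneg_of_plug (h1.trans (h.mono hr.1)) ((h.mono hr.2).trans h2))
    have e1 : a t = a s := by
      apply const_of_deriv hst
      intro r hr
      have h5 := h.ha r
      rw [hee r hr, hdr r hr] at h5
      simpa using h5
    have e2 : b t = b s := by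
      apply const_of_deriv hst
      intro r hr
      have h5 := h.hb r
      rw [hee r hr] at h5
      simpa using h5
    rw [e1, e2]
    simp [hpi.le]
  · have hne : ∀ r ∈ Icc s t, cos ((a r + b r) / 2) ≠ 0 ∧ cos ((a r - b r) / 2) ≠ 0 := by
      intro r hr
      have h3 : cos (a r) + cos (b r) ≠ 0 := by rw [h.H_const hst h1 h2 hr]; exact h0
      rw [cos_add_cos] at h3
      constructor
      · intro h4; apply h3; rw [h4]; ring
      · intro h4; apply h3; rw [h4]; ring
    have ha := h.cont_a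
    have hb := h.cont_b
    have u1 := cos_ne_zero_bound (f := fun r => (a r + b r) / 2) (by fun_prop) hst
      fun r hr => (hne r hr).1
    have u2 := cos_ne_zero_bound (f := fun r => (a r - b r) / 2) (by fun_prop) hst
      fun r hr => (hne r hr).2
    rw [abs_le] at u1 u2
    constructor <;> rw [abs_le] <;> constructor <;> linarith [u1.1, u1.2, u2.1, u2.2]

/-- displacement in a drift zone -/
theorem drift_bound (h : Tr a b z) {k : ℤ} {s t : ℝ} (hst : s ≤ t) (h1 : 2 * π * k + π ≤ z s)
    (h2 : z t ≤ 2 * π * k + 2 * π) : |a t - a s| ≤ 2 * π ∧ |b t - b s| ≤ 2 * π := by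
  have hpi := pi_pos
  obtain ⟨h3, h4⟩ := h.drift_aux hst h1 h2
  constructor
  · have h5 : a t - a s = π / 4 * (cos (z t) - cos (z s)) := by linarith
    rw [h5, abs_mul, abs_of_pos (by positivity)]
    have h6 : |cos (z t) - cos (z s)| ≤ 2 := by
      rw [abs_le]
      constructor <;> linarith [neg_one_le_cos (z t), neg_one_le_cos (z s), cos_le_one (z t),
        cos_le_one (z s)]
    nlinarith
  · rw [h4]; simp [hpi.le]

theorem zone_bound (h : Tr a b z) {n : ℤ} {s t : ℝ} (hst : s ≤ t) (h1 : π * n ≤ z s)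
    (h2 : z t ≤ π * n + π) : |a t - a s| ≤ 2 * π ∧ |b t - b s| ≤ 2 * π := by
  rcases Int.even_or_odd' n with ⟨k, hk | hk⟩
  · rw [hk] at h1 h2
    push_cast at h1 h2
    exact plug_bound h (k := k) hst (by linarith) (by linarith)
  · rw [hk] at h1 h2
    push_cast at h1 h2
    exact drift_bound h (k := k) hst (by linarith) (by linarith)

theorem multi_bound (h : Tr a b z) (N : ℕ) : ∀ (n : ℤ) (s t : ℝ), s ≤ t → π * n ≤ z s →
    z s ≤ π * n + π → z t ≤ π * n + π + π * N →
    |a t - a s| ≤ 2 * π * (N + 1) ∧ |b t - b s| ≤ 2 * π * (N + 1) := by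
  have hpi := pi_pos
  induction N with
  | zero =>
    intro n s t hst h1 _ h3
    simpa using zone_bound h (n := n) hst h1 (by simpa using h3)
  | succ N ih =>
    intro n s t hst h1 h2 h3
    push_cast at h3
    by_cases h4 : z t ≤ π * n + π + π * N
    · obtain ⟨h5, h6⟩ := ih n s t hst h1 h2 h4
      push_cast
      constructor <;> linarith
    · have h5 : π * n + π ≤ z t := by
        have : 0 ≤ π * N := by positivity
        linarith
      obtain ⟨r, hr, hzr⟩ := ivt h.cont_z hst h2 h5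
      obtain ⟨h6, h7⟩ := zone_bound h (n := n) hr.1 h1 hzr.le
      obtain ⟨h8, h9⟩ := ih (n + 1) r t hr.2 (by push_cast; linarith) (by push_cast; linarith)
        (by push_cast; linarith)
      push_cast
      constructor
      · have := abs_sub_le (a t) (a r) (a s)
        linarith
      · have := abs_sub_le (b t) (b r) (b s)
        linarith

theorem horizontal (h : Tr a b z) {s t : ℝ} (hst : s ≤ t) :
    |a t - a s| ≤ 22 * π ∧ |b t - b s| ≤ 22 * π := by
  have hpi := pi_pos
  set n := ⌊z s / π⌋ with hn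
  have h1 : π * n ≤ z s := by
    have := Int.floor_le (z s / π)
    rw [le_div_iff₀ hpi, ← hn] at this
    linarith
  have h2 : z s ≤ π * n + π := by
    have := (Int.lt_floor_add_one (z s / π)).le
    rw [div_le_iff₀ hpi, ← hn] at this
    linarith
  have h3 := vertical h hst
  obtain ⟨h4, h5⟩ := multi_bound h 10 n s t hst h1 h2 (by push_cast; linarith)
  push_cast at h4 h5
  constructor <;> linarith

/-! ### The flow on the universal cover -/

variable (m : ℕ)

/-- the flow of `V m` -/
noncomputable def Phi (t : ℝ) (x : Fin (m + 3) → ℝ) : Fin (m + 3) → ℝ :=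
  flow (V m) (lip_V m) (bdd_V m) t x

theorem Phi_zero (x : Fin (m + 3) → ℝ) : Phi m 0 x = x := flow_zero _ _ x

theorem Phi_add (s t : ℝ) (x : Fin (m + 3) → ℝ) : Phi m (s + t) x = Phi m s (Phi m t x) :=
  flow_add _ _ s t x

theorem Phi_cont : Continuous fun p : ℝ × (Fin (m + 3) → ℝ) => Phi m p.1 p.2 :=
  flow_continuous_uncurry _ _

theorem Phi_tr (x : Fin (m + 3) → ℝ) :
    Tr (fun t => Phi m t x 0) (fun t => Phi m t x 1) fun t => Phi m t x 2 := by
  have h := flow_sol (lip_V m) (bdd_V m) x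
  refine ⟨fun t => ?_, fun t => ?_, fun t => ?_⟩
  · have := (hasDerivAt_pi.1 (h t)) 0
    rw [V_zero] at this
    exact this
  · have := (hasDerivAt_pi.1 (h t)) 1
    rw [V_one] at this
    exact this
  · have := (hasDerivAt_pi.1 (h t)) 2
    rw [V_two] at this
    exact this

theorem Phi_other (x : Fin (m + 3) → ℝ) (t : ℝ) (i : Fin (m + 3)) (h0 : i ≠ 0) (h1 : i ≠ 1)
    (h2 : i ≠ 2) : Phi m t x i = x i := by
  have h := flow_sol (lip_V m) (bdd_V m) x
  have hd : ∀ t, HasDerivAt (fun t => Phi m t x i) 0 t := by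
    intro t
    have := (hasDerivAt_pi.1 (h t)) i
    rw [V_other m _ i h0 h1 h2] at this
    exact this
  have := is_const_of_deriv_eq_zero (f := fun t => Phi m t x i)
    (fun t => (hd t).differentiableAt) (fun t => (hd t).deriv) t 0
  simpa [Phi_zero] using this

theorem Phi_bound_pos (x : Fin (m + 3) → ℝ) {t : ℝ} (ht : 0 ≤ t) :
    dist (Phi m t x) x ≤ 22 * π := by
  have hpi := pi_pos
  rw [dist_pi_le_iff (by positivity)]
  intro i
  rw [Real.dist_eq]
  have htr := Phi_tr m x
  by_cases h0 : i = 0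
  · rw [h0]
    have := (horizontal htr ht).1
    simpa [Phi_zero] using this
  by_cases h1 : i = 1
  · rw [h1]
    have := (horizontal htr ht).2
    simpa [Phi_zero] using this
  by_cases h2 : i = 2
  · rw [h2]
    have h3 := vertical htr ht
    have h4 := htr.mono ht
    simp only [Phi_zero] at h3 h4
    rw [abs_le]
    constructor <;> linarith
  · rw [Phi_other m x t i h0 h1 h2]
    simp only [sub_self, abs_zero]
    positivity

theorem Phi_bound (x : Fin (m + 3) → ℝ) (t : ℝ) : dist (Phi m t x) x ≤ 22 * π := by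
  rcases le_total 0 t with ht | ht
  · exact Phi_bound_pos m x ht
  · have h1 := Phi_bound_pos m (Phi m t x) (t := -t) (by linarith)
    rw [← Phi_add, neg_add_cancel, Phi_zero] at h1
    rwa [dist_comm]

theorem Phi_periodic (t : ℝ) (x : Fin (m + 3) → ℝ) (k : Fin (m + 3) → ℤ) :
    Phi m t (x + fun i => (k i : ℝ) * (2 * π)) = Phi m t x + fun i => (k i : ℝ) * (2 * π) := by
  have h := flow_sol (lip_V m) (bdd_V m) x
  have h2 : Sol (V m) fun t => Phi m t x + fun i => (k i : ℝ) * (2 * π) := by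
    intro t
    have h3 := (h t).add_const (fun i => (k i : ℝ) * (2 * π))
    have h4 : V m (Phi m t x + fun i => (k i : ℝ) * (2 * π)) = V m (Phi m t x) := V_periodic m _ k
    rw [h4]
    exact h3
  have h5 := eq_flow (lip_V m) (bdd_V m) h2 t
  rw [h5]
  simp only [Phi_zero]
  rfl

/-- for small times there are no fixed points -/
theorem Phi_no_fixed : ∃ τ : ℝ, 0 < τ ∧ ∀ t, 0 < t → t ≤ τ → ∀ x, Phi m t x ≠ x := by
  obtain ⟨K, hK⟩ := lip_V m
  refine ⟨1 / (K + 1), by positivity, fun t ht htτ x h => ?_⟩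
  have h1 : (K : ℝ) * t < 1 := by
    have hK0 : (0 : ℝ) ≤ K := K.2
    rw [le_div_iff₀ (by positivity)] at htτ
    nlinarith
  have h2 := no_short_return hK (flow_sol (lip_V m) (bdd_V m) x) ht h1
    (by
      have h3 : flow (V m) (lip_V m) (bdd_V m) t x = x := h
      rw [h3, flow_zero])
  rw [flow_zero] at h2
  exact V_ne_zero m x h2

theorem Phi_speed : ∃ M : ℝ, 0 ≤ M ∧ ∀ s t x, dist (Phi m s x) (Phi m t x) ≤ M * |s - t| := by
  obtain ⟨M, hM⟩ := bdd_V m
  exact ⟨M, M.2, fun s t x => dist_flow_le _ _ hM s t x⟩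

end Pool.Agent.Helper65.Bound
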