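import Mathlib
import Pool.Agent.Helper65.Bound

/-! The flow on the torus. -/

open Set Metric Real
open scoped NNReal Topology

namespace Pool.Agent.Helper65.Torus

open Pool.Agent.Helper65.Bound

variable (m : ℕ)

/-- the projection to the torus -/
def pr {n : ℕ} (x : Fin n → ℝ) : Fin n → UnitAddCircle := fun i => (x i : UnitAddCircle)

theorem pr_quot (n : ℕ) : IsOpenQuotientMap (pr (n := n)) :=
  IsOpenQuotientMap.piMap (f := fun (_ : Fin n) (x : ℝ) => (x : UnitAddCircle))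
    fun _ => QuotientAddGroup.isOpenQuotientMap_mk

theorem pr_eq_iff {n : ℕ} {x y : Fin n → ℝ} :
    pr x = pr y ↔ ∃ k : Fin n → ℤ, y = x + fun i => (k i : ℝ) := by
  constructor
  · intro h
    have h1 : ∀ i, ∃ k : ℤ, y i = x i + k := by
      intro i
      have h2 : (x i : UnitAddCircle) = (y i : UnitAddCircle) := congrFun h i
      rw [eq_comm, ← sub_eq_zero, ← AddCircle.coe_sub, AddCircle.coe_eq_zero_iff] at h2
      obtain ⟨k, hk⟩ := h2
      refine ⟨k, ?_⟩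
      simp at hk
      linarith
    choose k hk using h1
    exact ⟨k, funext hk⟩
  · rintro ⟨k, rfl⟩
    funext i
    simp only [pr, Pi.add_apply]
    rw [eq_comm, ← sub_eq_zero, ← AddCircle.coe_sub, AddCircle.coe_eq_zero_iff]
    exact ⟨k i, by simp⟩

theorem dist_pr_le {n : ℕ} (x y : Fin n → ℝ) : dist (pr x) (pr y) ≤ dist x y := by
  rw [dist_pi_le_iff dist_nonneg]
  intro i
  have h1 : dist (pr x i) (pr y i) = ‖((x i - y i : ℝ) : UnitAddCircle)‖ := by
    rw [dist_eq_norm, AddCircle.coe_sub]; rfl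
  rw [h1]
  have h2 : ‖((x i - y i : ℝ) : UnitAddCircle)‖ ≤ ‖x i - y i‖ := QuotientAddGroup.norm_mk_le_norm
  refine h2.trans ?_
  rw [← dist_eq_norm]
  exact dist_le_pi_dist x y i

/-- the rescaled flow -/
noncomputable def G (s : ℝ) (t : ℝ) (x : Fin (m + 3) → ℝ) : Fin (m + 3) → ℝ :=
  s⁻¹ • Phi m t (s • x)

theorem G_int {k : ℕ} (hk : k ≠ 0) (t : ℝ) (x : Fin (m + 3) → ℝ) (l : Fin (m + 3) → ℤ) :
    G m (2 * π * k) t (x + fun i => (l i : ℝ)) = G m (2 * π * k) t x + fun i => (l i : ℝ) := by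
  have hpi := pi_pos
  have hk' : (k : ℝ) ≠ 0 := by exact_mod_cast hk
  unfold G
  have h1 : (2 * π * k) • (x + fun i => (l i : ℝ)) =
      (2 * π * k) • x + fun i => (((k : ℤ) * l i : ℤ) : ℝ) * (2 * π) := by
    funext i
    simp only [Pi.smul_apply, Pi.add_apply, smul_eq_mul]
    push_cast
    ring
  rw [h1, Phi_periodic m t _ fun i => (k : ℤ) * l i, smul_add]
  congr 1
  funext i
  simp only [Pi.smul_apply, smul_eq_mul]
  push_cast
  field_simp

/-- a section of the projection -/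
noncomputable def rep {n : ℕ} (x : Fin n → UnitAddCircle) : Fin n → ℝ :=
  fun i => (QuotientAddGroup.mk_surjective (x i)).choose

theorem pr_rep {n : ℕ} (x : Fin n → UnitAddCircle) : pr (rep x) = x :=
  funext fun i => (QuotientAddGroup.mk_surjective (x i)).choose_spec

/-- the flow on the torus -/
noncomputable def F (k : ℕ) (t : ℝ) (x : Fin (m + 3) → UnitAddCircle) :
    Fin (m + 3) → UnitAddCircle := pr (G m (2 * π * k) t (rep x))

theorem F_pr {k : ℕ} (hk : k ≠ 0) (t : ℝ) (x : Fin (m + 3) → ℝ) :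
    F m k t (pr x) = pr (G m (2 * π * k) t x) := by
  have h0 := pr_rep (pr x)
  unfold F
  generalize rep (pr x) = y at h0 ⊢
  obtain ⟨l, rfl⟩ := pr_eq_iff.1 h0
  rw [G_int m hk, pr_eq_iff]
  exact ⟨l, rfl⟩

theorem F_cont {k : ℕ} (hk : k ≠ 0) :
    Continuous fun p : ℝ × (Fin (m + 3) → UnitAddCircle) => F m k p.1 p.2 := by
  have h1 : IsOpenQuotientMap (Prod.map (id : ℝ → ℝ) (pr (n := m + 3))) :=
    IsOpenQuotientMap.id.prodMap (pr_quot _)
  rw [← h1.continuous_comp_iff]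
  have h2 : (fun p : ℝ × (Fin (m + 3) → UnitAddCircle) => F m k p.1 p.2) ∘
      Prod.map (id : ℝ → ℝ) (pr (n := m + 3)) = fun p => pr (G m (2 * π * k) p.1 p.2) := by
    funext p
    exact F_pr m hk p.1 p.2
  rw [h2]
  refine (pr_quot _).continuous.comp ?_
  have h4 : Continuous fun p : ℝ × (Fin (m + 3) → ℝ) => (2 * π * (k : ℝ)) • p.2 := by fun_prop
  have h3 : Continuous fun p : ℝ × (Fin (m + 3) → ℝ) => Phi m p.1 ((2 * π * (k : ℝ)) • p.2) :=
    (Phi_cont m).comp (continuous_fst.prodMk h4)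
  have h5 : Continuous fun p : ℝ × (Fin (m + 3) → ℝ) =>
      (2 * π * (k : ℝ))⁻¹ • Phi m p.1 ((2 * π * (k : ℝ)) • p.2) := by fun_prop
  exact h5

theorem F_zero {k : ℕ} (hk : k ≠ 0) (x : Fin (m + 3) → UnitAddCircle) : F m k 0 x = x := by
  have hpi := pi_pos
  have hk' : (k : ℝ) ≠ 0 := by exact_mod_cast hk
  have hs : (2 * π * k : ℝ) ≠ 0 := by positivity
  rw [F, G, Phi_zero, inv_smul_smul₀ hs, pr_rep]

theorem F_add {k : ℕ} (hk : k ≠ 0) (s t : ℝ) (x : Fin (m + 3) → UnitAddCircle) :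
    F m k (s + t) x = F m k s (F m k t x) := by
  have hpi := pi_pos
  have hk' : (k : ℝ) ≠ 0 := by exact_mod_cast hk
  have hs : (2 * π * k : ℝ) ≠ 0 := by positivity
  rw [← pr_rep x, F_pr m hk, F_pr m hk, F_pr m hk, G, G, G, smul_inv_smul₀ hs, Phi_add]

theorem F_dist {k : ℕ} (hk : k ≠ 0) (t : ℝ) (x : Fin (m + 3) → UnitAddCircle) :
    dist (F m k t x) x ≤ 11 / k := by
  have hpi := pi_pos
  have hk' : (0 : ℝ) < k := by exact_mod_cast Nat.pos_of_ne_zero hk
  have hs : (0 : ℝ) < 2 * π * k := by positivity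
  rw [← pr_rep x, F_pr m hk]
  refine (dist_pr_le _ _).trans ?_
  have h1 : rep x = (2 * π * k)⁻¹ • ((2 * π * k) • rep x) := (inv_smul_smul₀ hs.ne' _).symm
  calc dist (G m (2 * π * k) t (rep x)) (rep x)
      = dist ((2 * π * k)⁻¹ • Phi m t ((2 * π * k) • rep x))
          ((2 * π * k)⁻¹ • ((2 * π * k) • rep x)) := by rw [← h1]; rfl
    _ = (2 * π * k)⁻¹ * dist (Phi m t ((2 * π * k) • rep x)) ((2 * π * k) • rep x) := by
        rw [dist_smul₀, Real.norm_eq_abs, abs_of_pos (inv_pos.2 hs)]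
    _ ≤ (2 * π * k)⁻¹ * (22 * π) :=
        mul_le_mul_of_nonneg_left (Phi_bound m _ t) (inv_pos.2 hs).le
    _ = 11 / k := by field_simp; ring

theorem F_no_fixed {k : ℕ} (hk : k ≠ 0) :
    ∃ τ : ℝ, 0 < τ ∧ ∀ t, 0 < t → t ≤ τ → ∀ x, F m k t x ≠ x := by
  have hpi := pi_pos
  have hk' : (0 : ℝ) < k := by exact_mod_cast Nat.pos_of_ne_zero hk
  have hs : (0 : ℝ) < 2 * π * k := by positivity
  obtain ⟨τ, hτ, hfix⟩ := Phi_no_fixed m
  obtain ⟨M, hM0, hM⟩ := Phi_speed m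
  refine ⟨min τ ((2 * π * k) / (M + 1) / 2), by positivity, fun t ht htτ x hx => ?_⟩
  rw [← pr_rep x, F_pr m hk, eq_comm, pr_eq_iff] at hx
  obtain ⟨l, hl⟩ := hx
  set y := rep x with hy
  have h1 : Phi m t ((2 * π * k) • y) = (2 * π * k) • (y + fun i => (l i : ℝ)) := by
    rw [← hl, G, smul_inv_smul₀ hs.ne']
  have h2 := hM t 0 ((2 * π * k) • y)
  rw [Phi_zero, h1, sub_zero, abs_of_pos ht, dist_smul₀, Real.norm_eq_abs, abs_of_pos hs] at h2
  have h3 : M * t < 2 * π * k := by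
    have h4 : t ≤ (2 * π * k) / (M + 1) / 2 := htτ.trans (min_le_right _ _)
    have h5 : M * t ≤ M * ((2 * π * k) / (M + 1) / 2) := mul_le_mul_of_nonneg_left h4 hM0
    have h6 : M * ((2 * π * k) / (M + 1) / 2) = (2 * π * k) * (M / (M + 1)) / 2 := by ring
    have h7 : M / (M + 1) ≤ 1 := by rw [div_le_one (by positivity)]; linarith
    have h8 : (2 * π * k) * (M / (M + 1)) ≤ 2 * π * k := by
      have := mul_le_mul_of_nonneg_left h7 hs.le
      linarith
    linarith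
  have hl0 : ∀ i, l i = 0 := by
    intro i
    by_contra hne
    have h5 : (1 : ℝ) ≤ |(l i : ℝ)| := by
      have : (1 : ℤ) ≤ |l i| := Int.one_le_abs hne
      exact_mod_cast this
    have h6 : |(l i : ℝ)| ≤ dist (y + fun i => (l i : ℝ)) y := by
      have := dist_le_pi_dist (y + fun i => (l i : ℝ)) y i
      rw [Real.dist_eq] at this
      simpa using this
    have h7 : (2 * π * k) * 1 ≤ (2 * π * k) * dist (y + fun i => (l i : ℝ)) y :=
      mul_le_mul_of_nonneg_left (h5.trans h6) hs.le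
    linarith
  have h8 : (fun i => (l i : ℝ)) = 0 := by funext i; simp [hl0 i]
  rw [h8, add_zero] at h1
  exact hfix t ht (htτ.trans (min_le_left _ _)) _ h1

/-- **Flows on the torus of dimension `m + 3` without rest points whose orbits are small.** -/
theorem main (B : ℝ) (hB : 0 < B) :
    ∃ Φ : ℝ → (Fin (m + 3) → UnitAddCircle) → (Fin (m + 3) → UnitAddCircle),
      (Continuous fun p : ℝ × (Fin (m + 3) → UnitAddCircle) => Φ p.1 p.2) ∧ (∀ x, Φ 0 x = x) ∧
      (∀ s t x, Φ (s + t) x = Φ s (Φ t x)) ∧ (∀ t x, dist (Φ t x) x < B) ∧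
      ∃ τ : ℝ, 0 < τ ∧ ∀ t, 0 < t → t ≤ τ → ∀ x, Φ t x ≠ x := by
  obtain ⟨k, hk⟩ := exists_nat_gt (11 / B)
  have hk0 : (0 : ℝ) < k := lt_trans (by positivity) hk
  have hk' : k ≠ 0 := by
    rintro rfl
    simp at hk0
  refine ⟨F m k, F_cont m hk', F_zero m hk', F_add m hk', fun t x => ?_, F_no_fixed m hk'⟩
  refine (F_dist m hk' t x).trans_lt ?_
  rw [div_lt_iff₀ hk0]
  rw [div_lt_iff₀ hB] at hk
  linarith

/-- the torus is a manifold -/
theorem charted (n : ℕ) :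
    Nonempty (ChartedSpace (EuclideanSpace ℝ (Fin n)) (Fin n → UnitAddCircle)) := by
  let e1 : (Fin n → Circle) ≃ₜ (Fin n → UnitAddCircle) :=
    Homeomorph.piCongrRight fun _ => (AddCircle.homeomorphCircle (one_ne_zero)).symm
  let e3 : EuclideanSpace ℝ (Fin 1) ≃ₜ ℝ :=
    (EuclideanSpace.equiv (Fin 1) ℝ).toHomeomorph.trans (Homeomorph.funUnique (Fin 1) ℝ)
  let e2 : EuclideanSpace ℝ (Fin n) ≃ₜ ModelPi fun _ : Fin n => EuclideanSpace ℝ (Fin 1) :=
    (EuclideanSpace.equiv (Fin n) ℝ).toHomeomorph.trans (Homeomorph.piCongrRight fun _ => e3.symm)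
  let c1 : ChartedSpace (EuclideanSpace ℝ (Fin n))
      (ModelPi fun _ : Fin n => EuclideanSpace ℝ (Fin 1)) := e2.chartedSpace
  let c2 : ChartedSpace (EuclideanSpace ℝ (Fin n)) (Fin n → Circle) :=
    ChartedSpace.comp _ (ModelPi fun _ : Fin n => EuclideanSpace ℝ (Fin 1)) _
  exact ⟨e1.chartedSpace⟩

end Pool.Agent.Helper65.Torus
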